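import Pool.Agent.H37.CTQ.Stmts

/-! # Row PG2 of the board `ctq`: semiregular automorphisms and orbits -/

set_option autoImplicit false

namespace Pool.CND

open Finset

/-- A map all of whose orbits on `S` have length `N`. -/
private lemma pg2_free {Y : Type} [DecidableEq Y] (φ : Y → Y) (N : ℕ) (hN : 0 < N) :
    ∀ (k : ℕ) (S : Finset Y), S.card = k → (∀ y ∈ S, φ y ∈ S) →
      (∀ y ∈ S, ∀ r : ℕ, φ^[r] y = y ↔ N ∣ r) → N ∣ S.card := by
  intro k
  induction k using Nat.strong_induction_on with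
  | _ k ih =>
    intro S hk hc hf
    rcases S.eq_empty_or_nonempty with rfl | ⟨y, hy⟩
    · simp
    have hit : ∀ r : ℕ, φ^[r] y ∈ S := by
      intro r
      induction r with
      | zero => exact hy
      | succ r ih' =>
        rw [Function.iterate_succ_apply']
        exact hc _ ih'
    have hOS : (range N).image (fun i => φ^[i] y) ⊆ S := by
      intro z hz
      rw [mem_image] at hz
      obtain ⟨i, _, rfl⟩ := hz
      exact hit i
    have hmod : ∀ r : ℕ, φ^[r] y ∈ (range N).image (fun i => φ^[i] y) := by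
      intro r
      have e2 : φ^[N * (r / N)] y = y := (hf y hy _).2 (Dvd.intro _ rfl)
      have e1 : φ^[r] y = φ^[r % N] y := by
        have e3 : φ^[r % N + N * (r / N)] y = φ^[r % N] y := by
          rw [Function.iterate_add_apply, e2]
        rwa [Nat.mod_add_div] at e3
      rw [e1, mem_image]
      exact ⟨r % N, mem_range.2 (Nat.mod_lt _ hN), rfl⟩
    have hOc : ((range N).image (fun i => φ^[i] y)).card = N := by
      have key : ∀ i j, i ≤ j → j < N → φ^[i] y = φ^[j] y → i = j := by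
        intro i j hij hj h
        have e1 : φ^[N - i + j] y = y := by
          rw [Function.iterate_add_apply, ← h, ← Function.iterate_add_apply]
          have h3 : N - i + i = N := by omega
          rw [h3]
          exact (hf y hy N).2 (dvd_refl N)
        have e2 := (hf y hy _).1 e1
        have e3 : N - i + j = N + (j - i) := by omega
        rw [e3, Nat.dvd_add_right (dvd_refl N)] at e2
        have e4 := Nat.eq_zero_of_dvd_of_lt e2 (by omega)
        omega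
      rw [card_image_of_injOn, card_range]
      intro i hi j hj h
      rw [coe_range, Set.mem_Iio] at hi hj
      rcases le_total i j with hij | hij
      · exact key i j hij hj h
      · exact (key j i hij hi h.symm).symm
    have hadd := card_sdiff_add_card_eq_card hOS
    have hrest : N ∣ (S \ (range N).image (fun i => φ^[i] y)).card := by
      refine ih (S \ (range N).image (fun i => φ^[i] y)).card ?_
        (S \ (range N).image (fun i => φ^[i] y)) rfl ?_ ?_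
      · omega
      · intro z hz
        rw [mem_sdiff] at hz ⊢
        refine ⟨hc z hz.1, fun h => hz.2 ?_⟩
        rw [mem_image] at h
        obtain ⟨i, _, hi⟩ := h
        have e1 : φ^[N - 1 + 1] z = z := (hf z hz.1 _).2 (by
          have h3 : N - 1 + 1 = N := by omega
          rw [h3])
        rw [Function.iterate_succ_apply, ← hi, ← Function.iterate_add_apply] at e1
        rw [← e1]
        exact hmod _
      · intro z hz
        exact hf z (mem_sdiff.1 hz).1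
    rw [← hadd]
    exact dvd_add hrest (by rw [hOc])

theorem pg2_thm : S_PG2 := by
  classical
  intro p n G _ _ ι g C hp hι hg hC hEA hgC hYS
  have : Fintype G := Fintype.ofFinite G
  have : Fact p.Prime := ⟨hp⟩
  obtain ⟨hexp, hcomm⟩ := hEA
  -- powers of `g` normalise `C`
  have hnC : ∀ r : ℕ, ∀ x ∈ C, g ^ r * x * (g ^ r)⁻¹ ∈ C := by
    intro r
    induction r with
    | zero => intro x hx; simpa using hx
    | succ r ih =>
      intro x hx
      have e1 := hgC _ (ih x hx)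
      have e2 : g ^ (r + 1) * x * (g ^ (r + 1))⁻¹ = g * (g ^ r * x * (g ^ r)⁻¹) * g⁻¹ := by
        rw [pow_succ']
        group
      rw [e2]
      exact e1
  have hmul : ∀ (a b : G) (x : Fin n), ι (a * b) x = ι a (ι b x) := by
    intro a b x
    rw [map_mul, Equiv.Perm.mul_apply]
  have hone : ∀ x : Fin n, ι 1 x = x := by
    intro x
    rw [map_one, Equiv.Perm.one_apply]
  obtain ⟨c₀, hc₀, hc₀1⟩ : ∃ c ∈ C, c ≠ 1 := (Subgroup.ne_bot_iff_exists_ne_one.1 hC).elim
    (fun c hc => ⟨c.1, c.2, fun h => hc (Subtype.ext h)⟩)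
  obtain ⟨x₀, hx₀⟩ : ∃ x, ι c₀ x ≠ x := by
    by_contra h
    push Not at h
    refine hc₀1 (hι ?_)
    rw [map_one]
    ext x
    rw [h x, Equiv.Perm.one_apply]
  -- the finsets
  let CF : Finset G := univ.filter (fun c => c ∈ C)
  have hCF : ∀ c, c ∈ CF ↔ c ∈ C := by
    intro c
    simp only [CF, mem_filter, mem_univ, true_and]
  let DF : Finset G := univ.filter (fun c => c ∈ C ∧ ι c x₀ = x₀)
  have hDF : ∀ c, c ∈ DF ↔ (c ∈ C ∧ ι c x₀ = x₀) := by
    intro c
    simp only [DF, mem_filter, mem_univ, true_and]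
  let O : Finset (Fin n) := CF.image (fun c => ι c x₀)
  have hO : ∀ y, y ∈ O ↔ ∃ c ∈ C, ι c x₀ = y := by
    intro y
    simp only [O, mem_image, hCF]
  -- `|C| = |O| |D|`
  have hcount : CF.card = O.card * DF.card := by
    rw [card_eq_sum_card_fiberwise (f := fun c => ι c x₀) (t := O)
      (fun c hc => mem_image_of_mem _ hc), ← smul_eq_mul]
    refine sum_const_nat ?_ |>.trans (by rw [smul_eq_mul])
    intro y hy
    obtain ⟨c, hc, rfl⟩ := (hO y).1 hy
    symm
    refine card_nbij' (fun d => c * d) (fun d => c⁻¹ * d) ?_ ?_ ?_ ?_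
    · intro d hd
      have hd' := (hDF d).1 hd
      refine mem_filter.2 ⟨(hCF _).2 (C.mul_mem hc hd'.1), ?_⟩
      show ι (c * d) x₀ = ι c x₀
      rw [hmul, hd'.2]
    · intro d hd
      have hd' := mem_filter.1 hd
      have h2 : ι d x₀ = ι c x₀ := hd'.2
      refine (hDF _).2 ⟨C.mul_mem (C.inv_mem hc) ((hCF _).1 hd'.1), ?_⟩
      rw [hmul, h2, ← hmul, inv_mul_cancel, hone]
    · intro d _
      exact inv_mul_cancel_left c d
    · intro d _
      exact mul_inv_cancel_left c d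
  -- `|C|` is a power of `p`
  obtain ⟨k, hk⟩ : ∃ k, CF.card = p ^ k := by
    have h1 : IsPGroup p C := by
      intro c
      refine ⟨1, Subtype.ext ?_⟩
      rw [pow_one]
      exact hexp c.1 c.2
    obtain ⟨k, hk⟩ := IsPGroup.iff_card.1 h1
    refine ⟨k, ?_⟩
    rw [← hk, Nat.card_eq_fintype_card, Fintype.card_subtype]
  obtain ⟨m, _, hm⟩ := (Nat.dvd_prime_pow hp).1 (hk ▸ Dvd.intro _ hcount.symm)
  have hx₀O : x₀ ∈ O := (hO _).2 ⟨1, C.one_mem, hone _⟩
  have hm1 : 1 ≤ m := by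
    by_contra h
    have h0 : m = 0 := by omega
    rw [h0, pow_zero, card_eq_one] at hm
    obtain ⟨y, hy⟩ := hm
    have e1 : x₀ = y := by
      rw [hy] at hx₀O
      exact mem_singleton.1 hx₀O
    have e2 : ι c₀ x₀ = y := by
      have e3 : ι c₀ x₀ ∈ O := (hO _).2 ⟨c₀, hc₀, rfl⟩
      rw [hy] at e3
      exact mem_singleton.1 e3
    exact hx₀ (e2.trans e1.symm)
  -- `g ^ r` and the orbit
  have hT1 : ∀ (r : ℕ) (a : Fin n), a ∈ O → ι (g ^ r) x₀ ∈ O → ι (g ^ r) a ∈ O := by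
    intro r a ha hr
    obtain ⟨c, hc, rfl⟩ := (hO a).1 ha
    obtain ⟨d, hd, hd'⟩ := (hO _).1 hr
    refine (hO _).2 ⟨g ^ r * c * (g ^ r)⁻¹ * d, C.mul_mem (hnC r c hc) hd, ?_⟩
    rw [hmul, hd', ← hmul, ← hmul]
    congr 2
    group
  have hT2 : ∀ (r : ℕ) (a : Fin n), a ∈ O → ι (g ^ r) a ∈ O → ι (g ^ r) x₀ ∈ O := by
    intro r a ha hr
    obtain ⟨c, hc, rfl⟩ := (hO a).1 ha
    obtain ⟨d, hd, hd'⟩ := (hO _).1 hr
    refine (hO _).2 ⟨(g ^ r * c * (g ^ r)⁻¹)⁻¹ * d, C.mul_mem (C.inv_mem (hnC r c hc)) hd, ?_⟩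
    rw [hmul, hd', ← hmul, ← hmul]
    congr 2
    group
  have hex : ∃ r : ℕ, 1 ≤ r ∧ ι (g ^ r) x₀ ∈ O := by
    refine ⟨orderOf g, orderOf_pos g, ?_⟩
    rw [pow_orderOf_eq_one, hone]
    exact hx₀O
  obtain ⟨ℓ, ⟨hℓ1, hℓ⟩, hmin⟩ : ∃ ℓ : ℕ, (1 ≤ ℓ ∧ ι (g ^ ℓ) x₀ ∈ O) ∧
      ∀ r, 1 ≤ r → ι (g ^ r) x₀ ∈ O → ℓ ≤ r :=
    ⟨Nat.find hex, Nat.find_spec hex, fun r h1 h2 => Nat.find_min' hex ⟨h1, h2⟩⟩
  have hℓq : ∀ q : ℕ, ι (g ^ (ℓ * q)) x₀ ∈ O := by
    intro q
    induction q with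
    | zero => rw [Nat.mul_zero, pow_zero, hone]; exact hx₀O
    | succ q ih =>
      have e1 : g ^ (ℓ * (q + 1)) = g ^ ℓ * g ^ (ℓ * q) := by
        rw [← pow_add]
        congr 1
        ring
      rw [e1, hmul]
      exact hT1 ℓ _ ih hℓ
  have hℓd : ∀ r : ℕ, ι (g ^ r) x₀ ∈ O → ℓ ∣ r := by
    intro r hr
    have e1 : g ^ r = g ^ (r % ℓ) * g ^ (ℓ * (r / ℓ)) := by
      rw [← pow_add, Nat.mod_add_div]
    rw [e1, hmul] at hr
    have e2 := hT2 (r % ℓ) _ (hℓq (r / ℓ)) hr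
    rcases Nat.eq_zero_or_pos (r % ℓ) with h0 | h0
    · exact Nat.dvd_of_mod_eq_zero h0
    · have e3 := hmin _ h0 e2
      have e4 := Nat.mod_lt r hℓ1
      omega
  have hpℓ : ¬ p ∣ ℓ := by
    intro h
    refine hg (dvd_trans h (hℓd _ ?_))
    rw [pow_orderOf_eq_one, hone]
    exact hx₀O
  have hle : p ^ m * ℓ ≤ n := by
    have key : ∀ (i j : ℕ) (a b : Fin n), i ≤ j → j < ℓ → a ∈ O → b ∈ O →
        ι (g ^ i) a = ι (g ^ j) b → i = j ∧ a = b := by
      intro i j a b hij hj ha hb h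
      have e1 : g ^ j = g ^ i * g ^ (j - i) := by
        rw [← pow_add]
        congr 1
        omega
      rw [e1, hmul] at h
      have e2 : a = ι (g ^ (j - i)) b := (ι (g ^ i)).injective h
      have e3 := hT2 (j - i) b hb (e2 ▸ ha)
      rcases Nat.eq_zero_or_pos (j - i) with h0 | h0
      · refine ⟨by omega, ?_⟩
        rw [e2, h0, pow_zero, hone]
      · have e4 := hmin _ h0 e3
        omega
    have h1 : ((range ℓ) ×ˢ O).card ≤ (univ : Finset (Fin n)).card := by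
      refine card_le_card_of_injOn (fun x => ι (g ^ x.1) x.2) (fun _ _ => mem_univ _) ?_
      rintro ⟨i, a⟩ hi ⟨j, b⟩ hj h
      have hi' := mem_product.1 (mem_coe.1 hi)
      have hj' := mem_product.1 (mem_coe.1 hj)
      have hi1 : i < ℓ := mem_range.1 hi'.1
      have hj1 : j < ℓ := mem_range.1 hj'.1
      rcases le_total i j with hij | hij
      · obtain ⟨h2, h3⟩ := key i j a b hij hj1 hi'.2 hj'.2 h
        rw [h2, h3]
      · obtain ⟨h2, h3⟩ := key j i b a hij hi1 hj'.2 hi'.2 h.symm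
        rw [h2, h3]
    rw [card_product, card_range, card_univ, Fintype.card_fin, hm, mul_comm] at h1
    exact h1
  refine ⟨m, ℓ, hm1, hℓ1, hpℓ, hle, ?_⟩
  -- the order of `g ^ ℓ` on `C`
  have hexN : ∃ N : ℕ, 1 ≤ N ∧ ∀ w ∈ C, g ^ (ℓ * N) * w = w * g ^ (ℓ * N) := by
    refine ⟨orderOf g, orderOf_pos g, ?_⟩
    intro w _
    rw [mul_comm ℓ, pow_mul, pow_orderOf_eq_one, one_pow, one_mul, mul_one]
  obtain ⟨N, ⟨hN1, hN⟩, hNmin⟩ : ∃ N : ℕ,
      (1 ≤ N ∧ ∀ w ∈ C, g ^ (ℓ * N) * w = w * g ^ (ℓ * N)) ∧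
      ∀ r, 1 ≤ r → (∀ w ∈ C, g ^ (ℓ * r) * w = w * g ^ (ℓ * r)) → N ≤ r :=
    ⟨Nat.find hexN, Nat.find_spec hexN, fun r h1 h2 => Nat.find_min' hexN ⟨h1, h2⟩⟩
  have hNq : ∀ q : ℕ, ∀ w ∈ C, g ^ (ℓ * (N * q)) * w = w * g ^ (ℓ * (N * q)) := by
    intro q
    induction q with
    | zero => intro w _; simp
    | succ q ih =>
      intro w hw
      have e1 : g ^ (ℓ * (N * (q + 1))) = g ^ (ℓ * N) * g ^ (ℓ * (N * q)) := by
        rw [← pow_add]
        congr 1
        ring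
      rw [e1, mul_assoc, ih w hw, ← mul_assoc, hN w hw, mul_assoc]
  have hNd : ∀ w ∈ C, w ≠ 1 → ∀ r : ℕ, g ^ (ℓ * r) * w = w * g ^ (ℓ * r) ↔ N ∣ r := by
    intro w hw hw1 r
    constructor
    · intro h
      have h2 := hYS (ℓ * r) ⟨w, hw, hw1, h⟩
      rcases Nat.eq_zero_or_pos (r % N) with h0 | h0
      · exact Nat.dvd_of_mod_eq_zero h0
      · have e4 := Nat.mod_lt r hN1
        have e3 := hNmin (r % N) h0 (by
          intro v hv
          have e5 : g ^ (ℓ * r) = g ^ (ℓ * (r % N)) * g ^ (ℓ * (N * (r / N))) := by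
            rw [← pow_add, ← mul_add, Nat.mod_add_div]
          have e6 := h2 v hv
          rw [e5] at e6
          refine mul_right_cancel (b := g ^ (ℓ * (N * (r / N)))) ?_
          calc g ^ (ℓ * (r % N)) * v * g ^ (ℓ * (N * (r / N)))
              = g ^ (ℓ * (r % N)) * (v * g ^ (ℓ * (N * (r / N)))) := mul_assoc _ _ _
            _ = g ^ (ℓ * (r % N)) * (g ^ (ℓ * (N * (r / N))) * v) := by rw [hNq _ v hv]
            _ = g ^ (ℓ * (r % N)) * g ^ (ℓ * (N * (r / N))) * v := (mul_assoc _ _ _).symm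
            _ = v * (g ^ (ℓ * (r % N)) * g ^ (ℓ * (N * (r / N)))) := e6
            _ = v * g ^ (ℓ * (r % N)) * g ^ (ℓ * (N * (r / N))) := (mul_assoc _ _ _).symm)
        omega
    · rintro ⟨q, rfl⟩
      exact hNq q w hw
  -- conjugation
  have hit : ∀ (r : ℕ) (w : G), (fun w : G => g ^ ℓ * w * (g ^ ℓ)⁻¹)^[r] w =
      g ^ (ℓ * r) * w * (g ^ (ℓ * r))⁻¹ := by
    intro r
    induction r with
    | zero => intro w; simp
    | succ r ih =>
      intro w
      rw [Function.iterate_succ_apply', ih]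
      have e1 : g ^ (ℓ * (r + 1)) = g ^ ℓ * g ^ (ℓ * r) := by
        rw [← pow_add]
        congr 1
        ring
      rw [e1]
      group
  have hfr : ∀ w ∈ C, w ≠ 1 → ∀ r : ℕ,
      (fun w : G => g ^ ℓ * w * (g ^ ℓ)⁻¹)^[r] w = w ↔ N ∣ r := by
    intro w hw hw1 r
    rw [hit, ← hNd w hw hw1 r]
    exact mul_inv_eq_iff_eq_mul
  have hne1 : ∀ w : G, w ≠ 1 → g ^ ℓ * w * (g ^ ℓ)⁻¹ ≠ 1 := by
    intro w hw h
    apply hw
    rw [mul_inv_eq_one] at h
    exact mul_eq_left.1 h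
  have hdC : N ∣ (CF.erase 1).card := by
    refine pg2_free (fun w : G => g ^ ℓ * w * (g ^ ℓ)⁻¹) N hN1 _ _ rfl ?_ ?_
    · intro w hw
      rw [mem_erase, hCF] at hw ⊢
      exact ⟨hne1 w hw.1, hnC ℓ w hw.2⟩
    · intro w hw
      rw [mem_erase, hCF] at hw
      exact hfr w hw.2 hw.1
  have hdD : N ∣ (DF.erase 1).card := by
    refine pg2_free (fun w : G => g ^ ℓ * w * (g ^ ℓ)⁻¹) N hN1 _ _ rfl ?_ ?_
    · intro w hw
      rw [mem_erase, hDF] at hw ⊢
      refine ⟨hne1 w hw.1, hnC ℓ w hw.2.1, ?_⟩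
      obtain ⟨c, hc, hc'⟩ := (hO _).1 hℓ
      have e1 : ι (g ^ ℓ * w * (g ^ ℓ)⁻¹) (ι (g ^ ℓ) x₀) = ι (g ^ ℓ) x₀ := by
        rw [← hmul]
        have e2 : g ^ ℓ * w * (g ^ ℓ)⁻¹ * g ^ ℓ = g ^ ℓ * w := by group
        rw [e2, hmul, hw.2.2]
      rw [← hc', ← hmul, hcomm _ (hnC ℓ w hw.2.1) c hc, hmul] at e1
      exact (ι c).injective e1
    · intro w hw
      rw [mem_erase, hDF] at hw
      exact hfr w hw.2.1 hw.1
  have h1C : (1 : G) ∈ CF := (hCF 1).2 C.one_mem
  have h1D : (1 : G) ∈ DF := (hDF 1).2 ⟨C.one_mem, hone x₀⟩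
  rw [card_erase_of_mem h1C] at hdC
  rw [card_erase_of_mem h1D] at hdD
  have hCpos : 0 < CF.card := card_pos.2 ⟨1, h1C⟩
  have hDpos : 0 < DF.card := card_pos.2 ⟨1, h1D⟩
  have hfin : N ∣ p ^ m - 1 := by
    have e1 : N ∣ (CF.card - 1) - (DF.card - 1) := Nat.dvd_sub hdC hdD
    have e2 : (CF.card - 1) - (DF.card - 1) = DF.card * (p ^ m - 1) := by
      rw [hcount, hm, Nat.mul_sub, mul_one, mul_comm (p ^ m)]
      omega
    rw [e2] at e1
    have e3 : Nat.Coprime N DF.card := by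
      have e4 : N.gcd DF.card ∣ DF.card - 1 := dvd_trans (Nat.gcd_dvd_left _ _) hdD
      have e5 : N.gcd DF.card ∣ DF.card := Nat.gcd_dvd_right _ _
      have e6 : N.gcd DF.card ∣ DF.card - (DF.card - 1) := Nat.dvd_sub e5 e4
      have e7 : DF.card - (DF.card - 1) = 1 := by omega
      rw [e7] at e6
      exact Nat.dvd_one.1 e6
    exact e3.dvd_of_dvd_mul_left e1
  intro x hx
  obtain ⟨q, hq⟩ := hfin
  have := hNq q x hx
  rw [← hq, mul_comm ℓ] at this
  exact this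

end Pool.CND
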